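import Pool.Agent.N508.CS.Main
import Pool.Agent.N508.CS.Stab
import Pool.Agent.N508.CS.Qd
import Pool.Agent.N508.CS.Hom
import Pool.Agent.N508.CS.Finite
import Pool.Agent.N508.CS.Top
import Pool.Agent.N508.CS.Ln
import Pool.Agent.N508.CS.Fc
import Pool.Agent.N508.CS.Fz
import Pool.Agent.N508.CS.Com
import Pool.Agent.N508.CS.Ncr

/-!
# Graphs of groups with commensurable vertex groups and the Farrell-Jones conjecture in A-theory

`C` is any class of groups with the closure properties `ClosedE C` which contains the metabelian
groups. All this is known for the class of the groups whose wreath products with finite groups satisfy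
the Farrell-Jones conjecture with coefficients in A-theory (Enkelmann, Lück, Pieper, Ullmann and
Winges; Kasprowski, Ullmann, Wegner and Winges for the solvable groups), and for the corresponding
classes in K- and L-theory.

Let `G` act on a tree.

* (1) Suppose that the stabilizers of adjacent vertices are commensurable. Let `K` be a normal subgroup
  of `G` whose elements commute with the elements of a subgroup of finite index of some vertex
  stabilizer. (The largest one is the kernel of the homomorphism from `G` to the abstract commensurator
  `Comm(G_v)` of a vertex stabilizer.) Suppose that the elements of finite order of the groups `K_v` are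
  trivial, or that there are only finitely many in each `K_v` and `C` satisfies `AcylF`. If `G / K` is in
  `C` then `G` is in `C`.
* (2) Let `K` be a normal subgroup of `G` with `G / K` in `C` such that the vertex stabilizers `K_v` in
  `K` are torsion-free and nilpotent of bounded class, and for adjacent `u`, `v` the groups `K_u` and
  `K_v` are commensurable. Then `G` is in `C`.

The case without torsion in (1) is known in this library (`CommensurableStabilizersOnTrees`, for
`MP_490288_al`, where virtually polycyclic stabilizers are treated). The groups in (2) need not be
finitely generated, so that their automorphism groups and commensurators may be large, and no linear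
groups have to be in `C`.

Outline of the proof. (1) The groups `K_v` have finite conjugacy classes, as the condition on the
elements of `K` does not depend on the vertex (`t_fz`). So the elements of finite order form a subgroup
`A(v)` of `K_v` and `K_v / A(v)` is abelian (`t_fc`). The series `1 ≤ A(v) ≤ K_v` satisfy the conditions
of the theorem on compatible series relative to `K` (`S_MAIN`). (2) In torsion-free nilpotent groups an
element which commutes with a power of `h` commutes with `h`. So the upper central series of the
groups `K_v` are compatible, and `S_MAIN` applies with abelian factors.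
-/

set_option autoImplicit false

namespace Pool.Agent.Results.MP_59dd5b_al.CommensurableVertexGroups

open Pool.Agent.Y110.FJ (ClosedE)
open Pool.Agent.N509.TX (AcylF)
open Pool.Agent.N508.CS

theorem result (C : ∀ (G : Type) [Group G], Prop) (hC : ClosedE C)
    (hM : ∀ (G : Type) [Group G], derivedSeries G 2 = ⊥ → C G)
    {G V : Type} [Group G] [MulAction G V] (T : SimpleGraph V) (hT : T.IsTree)
    (hact : ∀ (g : G) (u v : V), T.Adj u v → T.Adj (g • u) (g • v))
    (K : Subgroup G) [K.Normal] (hQ : C (G ⧸ K)) :
    ((∀ u v : V, T.Adj u v →
        (MulAction.stabilizer G u).relIndex (MulAction.stabilizer G v) ≠ 0) →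
      (∀ g ∈ K, ∃ v : V, (Subgroup.centralizer {g}).relIndex (MulAction.stabilizer G v) ≠ 0) →
      ((∀ v : V, ∀ g ∈ K, g • v = v → IsOfFinOrder g → g = 1) ∨
        (AcylF C ∧ ∀ v : V, {g : G | g ∈ K ∧ g • v = v ∧ IsOfFinOrder g}.Finite)) → C G) ∧
    ((∀ u v : V, T.Adj u v →
        (K ⊓ MulAction.stabilizer G u).relIndex (K ⊓ MulAction.stabilizer G v) ≠ 0) →
      (∀ (v : V), ∀ g ∈ K, g • v = v → IsOfFinOrder g → g = 1) →
      ∀ c : ℕ, (∀ v : V,
        Subgroup.upperCentralSeries ↥(K ⊓ MulAction.stabilizer G v) c = ⊤) → C G) := by
  have hmain := t_main (t_qd t_stab) t_h t_f t_top
  exact ⟨fun hcom hK htor =>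
      t_com hmain t_abel t_fc t_fz C hC hM G V T hT hact hcom K hK hQ htor,
    fun hcom htf c hc => t_ncr hmain t_abel t_ln C hC hM G V T hT hact K hQ hcom htf c hc⟩

end Pool.Agent.Results.MP_59dd5b_al.CommensurableVertexGroups
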