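import Pool.Agent.N59.CR.Two

/-!
# Contracting wreath recursions and the Farrell–Jones conjecture

`C` is any class of groups with the closure properties `Closed C` (it contains `ℤ` and is closed under
subgroups, finite products, free products, overgroups of finite index and directed colimits with
arbitrary structure maps), all of which are known for the class of the groups that satisfy the
fibered A-theoretic Farrell–Jones conjecture with finite wreath products (and for the K- and
L-theoretic one with coefficients).

A wreath recursion `ψ : Γ → Γ ≀ Perm X` is contracting if there is a finite subset `N` of `Γ` which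
contains all sections of sufficiently large level of each element of `Γ`. The group `Γ` acts on the
tree `X^*`, in general not faithfully, and one is interested in the faithful quotient; for instance
`Γ` is the (orbifold) fundamental group of the complement of the postcritical set of a postcritically
finite rational function, or of a space with an expanding partial self-covering, and the quotient is
the iterated monodromy group. The theorem says that the faithful quotient is in `C` if `Γ` is,
provided that no element `≠ 1` of finite order of `N` acts trivially. The quotient group is in general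
infinitely presented and of exponential activity. Nothing is known on the amenability of these groups,
and they are in general not known to be linear, hyperbolic, or to act on spaces of finite dimension.

The theorem is proved for sequences of groups and recursions `Γ_n → Γ_(n+1) ≀ Perm (A n)` on
spherically homogeneous trees, where the sets `N n` may be infinite, but only boundedly many of their
elements act trivially; and for all groups of automorphisms which are generated by elements such that
all their sections of some level are in the images of the groups `Γ_n`.

As a consequence, a contracting group `G` with nucleus `N` is in `C` if the finitely presented group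
`NucGroup N` is in `C`, which is defined by the relations of length three between the elements of the
nucleus; and this is always the case if the nucleus is a union of subgroups in `C` (for instance
finite groups) intersecting trivially, such that sections of products of two of its elements are products
of elements of one of the subgroups.

Outline of the proof. Let `γ` act trivially and suppose that it is not killed by a power of the
recursion. By compactness there is a path along which all the sections `δ` of `γ` are nontrivial. As
they act trivially, taking sections is a homomorphism on the powers of `γ`. So for each `l` the powers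
`1, δ, …, δ^l` are in the nucleus far out on the path, hence they are not distinct for large `l`, and `δ`
has finite order, contrary to the assumption. Therefore the faithful quotient is a directed colimit of
subgroups of iterated wreath products of the groups `Γ_n` with finite symmetric groups.
-/

set_option autoImplicit false

namespace Pool.Agent.Results.MP_59dd5b_al.ContractingRecursions

open Pool.Agent.Y462.SS (Closed Wr IsTree act T)
open Pool.Agent.N59.CR

/-- `H` is (isomorphic to) a group of automorphisms of the tree of the words with letters in `A 0`,
`A 1`, ... (regarded as automorphisms of the tree of all words over `X` which do nothing outside),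
generated by a set `S` such that for each `s` in `S` there is a level `n` at which all sections of `s`
are in `R n`. -/
def GeneratedBy {X : Type} (A : ℕ → Set X) (R : ℕ → Set (List X → List X)) (H : Type) [Group H] :
    Prop :=
  ∃ (f : H →* Equiv.Perm (List X)) (S : Set H), Function.Injective f ∧
    Subgroup.closure S = ⊤ ∧ ∀ s ∈ S, IsTree (f s) ∧
      (∀ (v : List X) (x : X) (w : List X), x ∉ A v.length →
        f s (v ++ x :: w) = f s v ++ x :: w) ∧
      ∃ n : ℕ, ∀ v : List X, v.length = n → ∃ r ∈ R n, ∀ w, f s (v ++ w) = f s v ++ r w

/-- The sequence of recursions `ψ n : G n → G (n + 1) ≀ Perm X` is contracting: there are sets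
`N m ⊆ G m` such that all sections of sufficiently large level of each element are in them, for
arbitrarily large `m` at most `B` elements of `N m` act trivially on the tree, and no element `≠ 1` of
finite order of `N m` acts trivially. -/
def Contracting {X : Type} {G : ℕ → Type} [∀ n, Group (G n)]
    (ψ : ∀ n, G n →* Wr X (G (n + 1))) : Prop :=
  ∃ N : ∀ m, Set (G m),
    (∀ n (γ : G n), ∃ m₀, ∀ m, m₀ ≤ m → ∀ δ : G m, IsSection ψ n γ m δ → δ ∈ N m) ∧
    (∃ B : ℕ, ∀ m, ∃ m', m ≤ m' ∧
      {δ | δ ∈ N m' ∧ ∀ w, actN ψ w m' δ = w}.encard ≤ B) ∧
    ∀ m, ∀ δ ∈ N m, IsOfFinOrder δ → (∀ w, actN ψ w m δ = w) → δ = 1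

/-- Let `C` be a class of groups with the closure properties `Closed C`.
(1) Let `ψ n : G n → G (n + 1) ≀ Perm X` be recursions which do nothing outside the finite alphabets
`A n`, `G n` in `C`, and let the sequence be contracting. Then all groups generated by tree
automorphisms with all sections of some level `n` in the image of `G n` are in `C`; in particular the
images of the groups `G n`.
(2) Let `X` be finite, `Γ` in `C`, `ψ : Γ → Γ ≀ Perm X` contracting: all sections of sufficiently large
level of each element are in `N`, finitely many elements of `N` act trivially (for instance, `N` is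
finite) and none of them is of finite order and `≠ 1`. Then all groups generated by tree automorphisms
with all sections of some level in the image of `Γ` are in `C`.
(3) Let `N` be a set of tree automorphisms, closed under inverses, with `1 ∈ N`, and such that the
sections at the letters of all products of two elements of `N` are in `N`. If the group generated by
the elements of `N` with the relations `a b = c` for `a`, `b`, `c` in `N` is in `C` then so are all groups
generated by automorphisms with all sections of some level in `⟨N⟩`.
(4) Let `A 1, …, A k` be groups of tree automorphisms, in `C`, with trivial intersections, such that for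
all elements `a`, `b` of their union and each letter `x` the sections of `a` at `b(x)` and of `b` at `x`
are in one of the groups. Then all groups generated by automorphisms with all sections of some level in
the group generated by `A 1, …, A k` are in `C`. -/
theorem result (C : ∀ (G : Type) [Group G], Prop) (hC : Closed C) :
    (∀ (X : Type) (A : ℕ → Set X), (∀ n, (A n).Finite) →
      ∀ (G : ℕ → Type) [∀ n, Group (G n)] (ψ : ∀ n, G n →* Wr X (G (n + 1))),
        (∀ n γ x, x ∉ A n → (ψ n γ).p x = x ∧ (ψ n γ).s x = 1) → (∀ n, C (G n)) →
        Contracting ψ → ∀ (H : Type) [Group H],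
          GeneratedBy A (fun n => {r | ∃ γ : G n, ∀ w, r w = actN ψ w n γ}) H → C H) ∧
    (∀ (X : Type) [Finite X] (Γ : Type) [Group Γ] (ψ : Γ →* Wr X Γ) (N : Set Γ), C Γ →
      (∀ γ, ∃ n : ℕ, ∀ v : List X, n ≤ v.length → sectionAt ψ v γ ∈ N) →
      {δ | δ ∈ N ∧ ∀ w, act ψ δ w = w}.Finite →
      (∀ δ ∈ N, IsOfFinOrder δ → (∀ w, act ψ δ w = w) → δ = 1) →
        ∀ (H : Type) [Group H],
          GeneratedBy (fun _ => Set.univ) (fun _ => {r | ∃ γ : Γ, ∀ w, r w = act ψ γ w}) H →
            C H) ∧
    (∀ (X : Type) [Finite X] (N : Set (T X)), Nuc N → C (NucGroup N) →
      ∀ (H : Type) [Group H],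
        GeneratedBy (fun _ => Set.univ)
          (fun _ => {r | ∃ g ∈ Subgroup.closure N, ∀ w, r w = g.1 w}) H → C H) ∧
    (∀ (X : Type) [Finite X] (k : ℕ) (A : Fin k → Subgroup (T X)), FreeNuc A → (∀ i, C (A i)) →
      ∀ (H : Type) [Group H],
        GeneratedBy (fun _ => Set.univ)
          (fun _ => {r | ∃ g ∈ ⨆ i, A i, ∀ w, r w = g.1 w}) H → C H) := by
  refine ⟨?_, ?_, ?_, ?_⟩
  · rintro X A hA G _ ψ hψ hG ⟨N, h1, ⟨B, h2⟩, h3⟩ H _ ⟨f, S, hf, hS, hs⟩
    have hset : ∀ m, {δ | δ ∈ N m ∧ tauN ψ m δ = 1} =
        {δ | δ ∈ N m ∧ ∀ w, actN ψ w m δ = w} := by
      intro m
      ext δ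
      exact and_congr_right fun _ => tauN_eq_one ψ m δ
    refine gen_closed ψ C hC hA hψ hG (fun n γ => dies_of_tauN ψ N h1 B (fun m => ?_)
      (fun m δ h4 h5 h6 => h3 m δ h4 h5 ((tauN_eq_one ψ m δ).1 h6))) H f hf S hS
      (fun s h => (hs s h).1) (fun s h => (hs s h).2.1) fun s h => ?_
    · obtain ⟨m', h4, h5⟩ := h2 m
      refine ⟨m', h4, ?_⟩
      rw [hset]
      exact h5
    · obtain ⟨-, -, n, h4⟩ := hs s h
      refine ⟨n, fun v hv => ?_⟩
      obtain ⟨r, ⟨γ, hγ⟩, h5⟩ := h4 v hv
      exact ⟨γ, fun w => by rw [h5, hγ]⟩
  · rintro X _ Γ _ ψ N hΓ h1 h2 h3 H _ ⟨f, S, hf, hS, hs⟩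
    refine stat_closed ψ C hC hΓ N h2 h1 h3 H f hf S hS (fun s h => (hs s h).1) fun s h => ?_
    obtain ⟨-, -, n, h4⟩ := hs s h
    refine ⟨n, fun v hv => ?_⟩
    obtain ⟨r, ⟨γ, hγ⟩, h5⟩ := h4 v hv
    exact ⟨γ, fun w => by rw [h5, hγ]⟩
  · rintro X _ N h hN H _ ⟨f, S, hf, hS, hs⟩
    refine nuc_closed C hC h hN H f hf S hS (fun s h => (hs s h).1) fun s h => ?_
    obtain ⟨-, -, n, h4⟩ := hs s h
    refine ⟨n, fun v hv => ?_⟩
    obtain ⟨r, ⟨γ, hγ, h6⟩, h5⟩ := h4 v hv
    exact ⟨γ, hγ, fun w => by rw [h5, h6]⟩
  · rintro X _ k A h hA H _ ⟨f, S, hf, hS, hs⟩
    refine free_closed C hC h hA H f hf S hS (fun s h => (hs s h).1) fun s h => ?_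
    obtain ⟨-, -, n, h4⟩ := hs s h
    refine ⟨n, fun v hv => ?_⟩
    obtain ⟨r, ⟨γ, hγ, h6⟩, h5⟩ := h4 v hv
    exact ⟨γ, hγ, fun w => by rw [h5, h6]⟩

end Pool.Agent.Results.MP_59dd5b_al.ContractingRecursions
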