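import Pool.Agent.N506.F0
import Pool.Agent.N506.FB
import Pool.Agent.N506.FR.D0
import Pool.Agent.N506.FR.GDF

/-!
# Matrix groups over noncommutative domains of subexponential growth have finite decomposition
complexity

`k` is a field (of any characteristic) and `R` a `k`-algebra with a degree function `deg` (see
`IsDegree`): `deg (a b) = deg a + deg b` and `deg (a + b) ≤ max (deg a) (deg b)`, the elements of
degree at most `r` span a finite-dimensional subspace, and its dimension grows subexponentially. We
assume that the structure constants of `R`, for some `k`-basis, lie in a finitely generated subring
of `k` (see `FGConstants`).

Examples: Weyl algebras, enveloping algebras of finite-dimensional Lie algebras, quantum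
polynomial rings, with the usual filtrations, over any field. In general such rings are not contained
in matrix rings over commutative rings, nor over group rings `A[G]`: in characteristic zero, the Weyl
algebra has no homomorphism to such a ring, because of the trace.

Every group with a homomorphism to `GL_n(R)` whose kernel has finite decomposition complexity (in
the sense of Guentner, Tessera and Yu) has finite decomposition complexity.
-/

set_option autoImplicit false

namespace Pool.Agent.Results.MP_59dd5b_al.FilteredDomainsFDC

open Pool.Agent.N506.EX Pool.Agent.N506.FX

universe u

theorem result (k R : Type u) [Field k] [Ring R] [Algebra k R] (deg : R → ℕ)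
    (h : IsDegree k deg) (hc : FGConstants k R)
    (n : ℕ) (P : Type u) [Group P] (φ : P →* (Matrix (Fin n) (Fin n) R)ˣ)
    (hφ : FDC φ.ker) : FDC P :=
  FDC.ext φ (h.mfd hc n) hφ

end Pool.Agent.Results.MP_59dd5b_al.FilteredDomainsFDC
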