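import Pool.Agent.N508.CS.Lk
import Pool.Agent.Y529.FJ.Ext

/-!
# The Farrell-Jones conjecture for groups acting on trees: reduction to linked cylinders

`C` is any class of groups with the closure properties `ClosedE C` and `AcylF C`. All this is published
for the class of the groups whose wreath products with finite groups satisfy the Farrell-Jones
conjecture with coefficients in A-theory (Enkelmann, Lück, Pieper, Ullmann and Winges), and for the
corresponding classes in K- and L-theory (Knopf for the acylindrical actions).

Let `G` act on a tree and let `n` be a number. Two edges `wa`, `wb` at a vertex `w` are called directly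
linked if more than `n` elements of `G` fix `w`, `a` and `b`. The linked cylinders are the classes of
edges for the equivalence relation generated by the directly linked edges (`Lnk n G T w` is the
restriction to the edges at `w`, `Cyl T (Lnk n G T)` the set of the cylinders, `Pres hact y g` says that
`g` maps the cylinder `y` to itself). A linked cylinder is a subtree. If the action is acylindrical
(the stabilizers of the pairs of edges at a vertex have bounded order) then for large `n` each of them is
one edge.

(1) `G` is in `C` if and only if the vertex stabilizers and the stabilizers of the linked cylinders are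
in `C`.

(2) Let `K` be a normal subgroup of `G` which is in `C`, with `G / K` in `C`. Suppose that for all `g` in
`G`, no power `g^m`, `m > 0`, of which is in `K`, there is a number `n` such that the vertex stabilizers
in the group `K⟨g⟩` and the stabilizers in `K⟨g⟩` of the linked cylinders of the action of `K⟨g⟩` are in
`C`. Then `G` is in `C`.

So to prove the conjecture for a group that acts on a tree with known vertex stabilizers one may
suppose that any two edges of the tree can be joined by a chain of edges in which consecutive edges have
infinitely many (or at least more than `n`) common stabilizing elements.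

Outline of the proof. The vertices and the cylinders form a tree (tree of cylinders, Guirardel and
Levitt), on which the finitely generated subgroups of `G` act acylindrically: an element which fixes a
path of length `5` in it fixes two edges at a vertex which are not linked (`t_cyf`). (2) follows from
(1) and the extension criterion.
-/

set_option autoImplicit false

namespace Pool.Agent.Results.MP_59dd5b_al.LinkedCylinders

open Pool.Agent.Y110.FJ (ClosedE)
open Pool.Agent.N509.TX (AcylF)
open Pool.Agent.N509.TK (Cyl Pres)
open Pool.Agent.N508.CS

theorem result (C : ∀ (G : Type) [Group G], Prop) (hC : ClosedE C) (hA : AcylF C)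
    {G V : Type} [Group G] [MulAction G V] (T : SimpleGraph V) (hT : T.IsTree)
    (hact : ∀ (g : G) (u v : V), T.Adj u v → T.Adj (g • u) (g • v)) :
    (∀ n : ℕ, C G ↔ (∀ v : V, C ↥(MulAction.stabilizer G v)) ∧
      ∀ (y : Cyl T (Lnk n G T)) (L : Subgroup G), (∀ g ∈ L, Pres hact y g) → C L) ∧
    (∀ (K : Subgroup G) [K.Normal], C K → C (G ⧸ K) →
      (∀ g : G, (∀ m : ℕ, 0 < m → g ^ m ∉ K) → ∃ n : ℕ,
        (∀ v : V, C ↥(MulAction.stabilizer ↥(K ⊔ Subgroup.zpowers g) v)) ∧
        ∀ (y : Cyl T (Lnk n ↥(K ⊔ Subgroup.zpowers g) T)) (L : Subgroup ↥(K ⊔ Subgroup.zpowers g)),
          (∀ h ∈ L, Pres (fun (x : ↥(K ⊔ Subgroup.zpowers g)) u v hu => hact (x : G) u v hu) y h) →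
            C L) → C G) := by
  refine ⟨fun n => ⟨fun h => ⟨fun v => ?_, fun y L _ => ?_⟩, fun h => ?_⟩, ?_⟩
  · exact hC.base.of_injective _ _ (MulAction.stabilizer G v).subtype
      (Subgroup.subtype_injective _) h
  · exact hC.base.of_injective _ _ L.subtype (Subgroup.subtype_injective _) h
  · exact t_lk C hC hA T hT hact h.1 n h.2
  · intro K _ hK hQ hg
    refine Pool.Agent.Y529.FJ.t_ext C hC G K hK hQ fun g hgm => ?_
    obtain ⟨n, hV, hY⟩ := hg g hgm
    exact t_lk C hC hA T hT (fun (x : ↥(K ⊔ Subgroup.zpowers g)) u v hu => hact (x : G) u v hu)
      hV n hY

end Pool.Agent.Results.MP_59dd5b_al.LinkedCylinders
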